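import Pool.Agent.U737.MN.Stm
import Pool.Agent.TH111.J3097

/-! Project MN, package NotFull: Kummer theory over the normal closure. -/

set_option autoImplicit false

namespace Pool.Agent.U358.MN

open Pool.Agent.U737.MN Pool.Agent.TH111.J3097

theorem aux {K Ω : Type} [Field K] [NumberField K] [Field Ω] [Algebra K Ω] [IsAlgClosure K Ω]
    (M : IntermediateField K Ω) [FiniteDimensional K M] (L N : IntermediateField K Ω)
    (_hML : M ≤ L) (α : M) (s : Ω) (hs : s ^ 2 = (α : Ω))
    (hL : L = M ⊔ IntermediateField.adjoin K {s}) (hMN : M ≤ N) (hNn : Normal K N)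
    (hσM : ∀ (σ : Ω →ₐ[K] Ω) (m : M), σ m ∈ N) (NL : IntermediateField K Ω) (hNL : N ≤ NL)
    (hLN : ∀ σ : Ω →ₐ[K] Ω, L.map σ ≤ NL)
    (hNL' : ∀ E : IntermediateField K Ω, (∀ σ : Ω →ₐ[K] Ω, L.map σ ≤ E) → NL ≤ E)
    (hcon : ∀ S : Finset (M →ₐ[K] N), S.Nonempty → ¬ IsSquare (∏ φ ∈ S, φ α)) :
    Module.finrank K NL = 2 ^ Module.finrank K M * Module.finrank K N := by
  classical
  have hac : IsAlgClosed Ω := IsAlgClosure.isAlgClosed K
  have hnorm : Normal K Ω := IsAlgClosure.normal K Ω
  have halg : Algebra.IsAlgebraic K Ω := IsAlgClosure.isAlgebraic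
  have halgN : Algebra.IsAlgebraic N Ω := Algebra.IsAlgebraic.tower_top (K := K) _
  have h2 : (2 : N) ≠ 0 := by
    have : CharZero K := inferInstance
    have : CharZero N := charZero_of_injective_algebraMap (algebraMap K N).injective
    exact two_ne_zero
  have hex : ∀ φ : M →ₐ[K] N, ∃ t : Ω, t ^ 2 = algebraMap N Ω (φ α) := fun φ =>
    IsAlgClosed.exists_pow_nat_eq _ two_pos
  choose η hη using hex
  have : Fintype (M →ₐ[K] N) := Fintype.ofFinite _
  have hdeg := finrank_mq' h2 hη hcon
  have hcard : Fintype.card (M →ₐ[K] N) = Module.finrank K M := by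
    have h1 := AlgHom.card_of_splits K M N (fun x => by
        have h3 := hNn.splits (IntermediateField.inclusion hMN x)
        rwa [minpoly.algHom_eq (IntermediateField.inclusion hMN)
          (IntermediateField.inclusion hMN).injective] at h3)
    rw [← h1]
    convert rfl
  -- two square roots of the same element
  have hroot : ∀ (E : IntermediateField K Ω) (u v : Ω), u ^ 2 = v ^ 2 → v ∈ E → u ∈ E := by
    intro E u v h hv
    rcases sq_eq_sq_iff_eq_or_eq_neg.1 h with rfl | rfl
    · exact hv
    · exact neg_mem hv
  have hNC : (IntermediateField.adjoin N (Set.range η)).restrictScalars K = NL := by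
    apply le_antisymm
    · have h3 : IntermediateField.adjoin N (Set.range η) ≤
          IntermediateField.extendScalars hNL := by
        rw [IntermediateField.adjoin_le_iff]
        rintro _ ⟨φ, rfl⟩
        show η φ ∈ NL
        set σ : Ω →ₐ[K] Ω := φ.liftNormal Ω with hσ
        apply hroot _ (η φ) (σ s)
        · rw [hη, ← map_pow, hs]
          exact (φ.liftNormal_commutes Ω α).symm
        · apply hLN σ
          refine ⟨s, ?_, rfl⟩
          rw [hL]
          exact (le_sup_right : IntermediateField.adjoin K {s} ≤ _)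
            (IntermediateField.mem_adjoin_simple_self K s)
      exact h3
    · apply hNL'
      intro σ
      rw [hL, IntermediateField.map_sup, IntermediateField.adjoin_map, Set.image_singleton]
      apply sup_le
      · rintro _ ⟨m, hm, rfl⟩
        show σ m ∈ IntermediateField.adjoin N (Set.range η)
        exact IntermediateField.algebraMap_mem _ (⟨σ m, hσM σ ⟨m, hm⟩⟩ : N)
      · rw [IntermediateField.adjoin_simple_le_iff]
        show σ s ∈ (IntermediateField.adjoin N (Set.range η)).restrictScalars K
        let φ : M →ₐ[K] N :=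
          (σ.comp M.val).codRestrict N.toSubalgebra (fun m => hσM σ m)
        apply hroot _ (σ s) (η φ)
        · rw [hη, ← map_pow, hs]
          rfl
        · exact IntermediateField.subset_adjoin N (Set.range η) (Set.mem_range_self φ)
  rw [← hNC, ← hcard, ← hdeg]
  have h7 := Module.finrank_mul_finrank K N (IntermediateField.adjoin N (Set.range η))
  rw [mul_comm, h7]
  rfl

theorem t_NotFull : Pool.Agent.U737.MN.NotFull := by
  intro K Ω _ _ _ _ _ M _ L hML α s hα hs hsM hL hne
  by_contra hcon
  push Not at hcon
  apply hne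
  have hnorm : Normal K Ω := IsAlgClosure.normal K Ω
  have h1 : ∀ σ : Ω →ₐ[K] Ω, M.map σ ≤ IntermediateField.normalClosure K M Ω := by
    intro σ
    rw [IntermediateField.normalClosure_def' M]
    exact le_iSup (fun f : Ω →ₐ[K] Ω => M.map f) σ
  have h2 : ∀ σ : Ω →ₐ[K] Ω, L.map σ ≤ IntermediateField.normalClosure K L Ω := by
    intro σ
    rw [IntermediateField.normalClosure_def' L]
    exact le_iSup (fun f : Ω →ₐ[K] Ω => L.map f) σ
  have hNL : IntermediateField.normalClosure K M Ω ≤ IntermediateField.normalClosure K L Ω := by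
    rw [IntermediateField.normalClosure_def' M]
    apply iSup_le
    intro σ
    exact le_trans (IntermediateField.map_mono σ hML) (h2 σ)
  refine aux M L (IntermediateField.normalClosure K M Ω) hML α s hs hL M.le_normalClosure
    inferInstance (fun σ m => h1 σ ⟨m, m.2, rfl⟩) (IntermediateField.normalClosure K L Ω) hNL h2
    ?_ hcon
  intro E hE
  rw [IntermediateField.normalClosure_def' L]
  exact iSup_le hE

end Pool.Agent.U358.MN
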